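import Pool.Agent.helper98.K93U

/-!
Godsil-McKay switching sets in a graph cospectral with `K(9,3)`: a set of `2 m` vertices with `m` divisible by `6`
is empty or the whole vertex set.  So the restriction on the size of the sets in the last clause of
`main_tfae2` can be dropped.
-/

set_option autoImplicit false

open Matrix Finset

namespace Pool.Agent.helper20.K93

open Pool.Agent.helper3.K93 Pool.Agent.helper98.K93R

/-- `H` arises from `G` by Godsil-McKay switching with respect to some set of vertices. -/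
def GMany {V : Type*} (G H : SimpleGraph V) : Prop :=
  ∃ (D : Finset V) (m : ℕ), GMS G H D m

section gm

variable {V : Type*} [Fintype V] [DecidableEq V]

/-- `315` times the projection to the eigenvalue `-1` -/
def RM (G : SimpleGraph V) [DecidableRel G.Adj] : Matrix V V ℤ :=
  (40 : ℤ) • JR V ℤ - (7 : ℤ) • (G.adjMatrix ℤ * G.adjMatrix ℤ) - (42 : ℤ) • G.adjMatrix ℤ +
    (280 : ℤ) • (1 : Matrix V V ℤ)

omit [DecidableEq V] in
theorem JJ (h : Fintype.card V = 84) : JR V ℤ * JR V ℤ = (84 : ℤ) • JR V ℤ := by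
  ext i j
  rw [Matrix.mul_apply]
  simp only [JR_apply, mul_one, Finset.sum_const, Finset.card_univ, h, Matrix.smul_apply, smul_eq_mul]
  norm_num

theorem RM_A (G : SimpleGraph V) [DecidableRel G.Adj] (h : Rel V ℤ (G.adjMatrix ℤ)) :
    G.adjMatrix ℤ * RM G = (-1 : ℤ) • RM G := by
  have h5 : G.adjMatrix ℤ * (G.adjMatrix ℤ * G.adjMatrix ℤ) = (120 : ℤ) • JR V ℤ -
      (7 : ℤ) • (G.adjMatrix ℤ * G.adjMatrix ℤ) + (34 : ℤ) • G.adjMatrix ℤ +
      (40 : ℤ) • (1 : Matrix V V ℤ) := by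
    rw [← h.cub, ← mul_assoc]
    module
  unfold RM
  simp only [mul_add, mul_sub, Matrix.mul_smul, mul_one, h.AJ, h5]
  module

theorem RM_J (G : SimpleGraph V) [DecidableRel G.Adj] (h : Rel V ℤ (G.adjMatrix ℤ))
    (hV : Fintype.card V = 84) : JR V ℤ * RM G = 0 := by
  have h1 := JA G ℤ h
  have h2 : JR V ℤ * (G.adjMatrix ℤ * G.adjMatrix ℤ) = (400 : ℤ) • JR V ℤ := by
    rw [← mul_assoc, h1, Matrix.smul_mul, h1, smul_smul]
    norm_num
  unfold RM
  simp only [mul_add, mul_sub, Matrix.mul_smul, mul_one, h1, h2, JJ hV]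
  module

theorem RM_sq (G : SimpleGraph V) [DecidableRel G.Adj] (h : Rel V ℤ (G.adjMatrix ℤ))
    (hV : Fintype.card V = 84) : RM G * RM G = (315 : ℤ) • RM G := by
  have h1 := RM_A G h
  have h2 := RM_J G h hV
  have h3 : G.adjMatrix ℤ * G.adjMatrix ℤ * RM G = RM G := by
    rw [mul_assoc, h1, Matrix.mul_smul, h1, smul_smul]
    norm_num
  have h4 : RM G * RM G = ((40 : ℤ) • JR V ℤ - (7 : ℤ) • (G.adjMatrix ℤ * G.adjMatrix ℤ) -
      (42 : ℤ) • G.adjMatrix ℤ + (280 : ℤ) • (1 : Matrix V V ℤ)) * RM G := rfl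
  rw [h4, add_mul, sub_mul, sub_mul, Matrix.smul_mul, Matrix.smul_mul, Matrix.smul_mul, Matrix.smul_mul,
    h1, h2, h3, one_mul]
  module

theorem RM_symm (G : SimpleGraph V) [DecidableRel G.Adj] : (RM G)ᵀ = RM G := by
  unfold RM
  simp only [Matrix.transpose_add, Matrix.transpose_sub, Matrix.transpose_smul, Matrix.transpose_mul,
    Matrix.transpose_one, SimpleGraph.transpose_adjMatrix]
  rfl

theorem RM_psd (G : SimpleGraph V) [DecidableRel G.Adj] (h : Rel V ℤ (G.adjMatrix ℤ))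
    (hV : Fintype.card V = 84) (d : V → ℤ) : 0 ≤ d ⬝ᵥ (RM G *ᵥ d) := by
  have h1 : (315 : ℤ) * (d ⬝ᵥ (RM G *ᵥ d)) = (RM G *ᵥ d) ⬝ᵥ (RM G *ᵥ d) := by
    have h2 : (RM G *ᵥ d) ⬝ᵥ (RM G *ᵥ d) = d ⬝ᵥ ((RM G * RM G) *ᵥ d) := by
      rw [← Matrix.mulVec_mulVec, Matrix.dotProduct_mulVec d (RM G), ← Matrix.mulVec_transpose, RM_symm]
    rw [h2, RM_sq G h hV, Matrix.smul_mulVec, dotProduct_smul, smul_eq_mul]
  have h3 : 0 ≤ (RM G *ᵥ d) ⬝ᵥ (RM G *ᵥ d) := by
    rw [dotProduct]
    exact Finset.sum_nonneg fun i _ => mul_self_nonneg _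
  linarith

/-- the inequality for a switching set -/
theorem gm_ineq (G H : SimpleGraph V) [DecidableRel G.Adj] (h : Rel V ℤ (G.adjMatrix ℤ))
    (hV : Fintype.card V = 84) (D : Finset V) (m k : ℕ) (hD : GMS G H D m) (hm : 0 < m)
    (hk : ∀ v ∈ D, cnt G D v = k) :
    120 * (m : ℤ) + 14 * (k : ℤ) ^ 2 + 84 * k ≤ 560 + 14 * m * k := by
  classical
  obtain ⟨d, hd⟩ : ∃ d : V → ℤ, d = fun i => if i ∈ D then 1 else 0 := ⟨_, rfl⟩
  have hAd : G.adjMatrix ℤ *ᵥ d = fun v => (cnt G D v : ℤ) := by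
    funext v
    rw [Matrix.mulVec, dotProduct, hd]
    simp only [SimpleGraph.adjMatrix_apply, mul_ite, mul_one, mul_zero]
    have : ∀ x : V, (if x ∈ D then (if G.Adj v x then (1 : ℤ) else 0) else 0) =
        if x ∈ D ∧ G.Adj v x then 1 else 0 := by
      intro x
      split_ifs <;> simp_all
    simp only [this, Finset.sum_boole]
    unfold Pool.Agent.helper98.K93R.cnt
    congr 2
    ext x
    simp
  have hsd : ∑ v, d v = 2 * m := by
    rw [hd]
    simp only [Finset.sum_boole]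
    rw [Finset.filter_univ_mem, hD.card]
    push_cast
    ring
  have hdd : d ⬝ᵥ d = 2 * m := by
    rw [← hsd, dotProduct, hd]
    refine Finset.sum_congr rfl fun i _ => ?_
    dsimp only
    split_ifs <;> norm_num
  -- the sum of the counts
  have hJd : JR V ℤ *ᵥ d = fun _ => 2 * (m : ℤ) := by
    funext v
    rw [Matrix.mulVec, dotProduct, ← hsd]
    refine Finset.sum_congr rfl fun i _ => ?_
    rw [JR_apply, one_mul]
  have hsc : ∑ v, (cnt G D v : ℤ) = 40 * m := by
    have h1 : (JR V ℤ * G.adjMatrix ℤ) *ᵥ d = (20 : ℤ) • (JR V ℤ *ᵥ d) := by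
      rw [JA G ℤ h, Matrix.smul_mulVec]
    rw [← Matrix.mulVec_mulVec, hAd, hJd] at h1
    have hne : Nonempty V := by
      rw [← Fintype.card_pos_iff, hV]
      norm_num
    obtain ⟨v⟩ := hne
    have h2 := congrFun h1 v
    rw [Matrix.mulVec, dotProduct] at h2
    simp only [JR_apply, one_mul, Pi.smul_apply, smul_eq_mul] at h2
    rw [h2]
    ring
  have hdc : d ⬝ᵥ (fun v => (cnt G D v : ℤ)) = 2 * m * k := by
    have h1 : ∀ v, d v * (cnt G D v : ℤ) = (k : ℤ) * d v := by
      intro v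
      rw [hd]
      by_cases hv : v ∈ D
      · simp [hv, hk v hv]
      · simp [hv]
    rw [dotProduct]
    simp only [h1]
    rw [← Finset.mul_sum, hsd]
    ring
  -- the sum of the squares
  have hsq : 2 * (m : ℤ) * k ^ 2 + m ^ 2 * (40 - 2 * k) ≤ ∑ v, (cnt G D v : ℤ) ^ 2 := by
    have h1 : ∀ v, (m : ℤ) * cnt G D v + (k * (k - m)) * d v ≤ (cnt G D v : ℤ) ^ 2 := by
      intro v
      rw [hd]
      by_cases hv : v ∈ D
      · simp only [hv, if_true, hk v hv]
        nlinarith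
      · simp only [hv, if_false, mul_zero, add_zero]
        rcases hD.out v hv with h0 | h0 | h0
        · rw [h0]; norm_num
        · rw [h0]; nlinarith
        · rw [h0]
          push_cast
          nlinarith [sq_nonneg (m : ℤ)]
    have h2 := Finset.sum_le_sum (s := Finset.univ) fun v _ => h1 v
    rw [Finset.sum_add_distrib, ← Finset.mul_sum, ← Finset.mul_sum, hsc, hsd] at h2
    refine le_trans (le_of_eq ?_) h2
    ring
  have hpsd := RM_psd G h hV d
  have hval : d ⬝ᵥ (RM G *ᵥ d) = 160 * (m : ℤ) ^ 2 - 7 * ∑ v, (cnt G D v : ℤ) ^ 2 - 84 * (m * k) + 560 * m := by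
    unfold RM
    rw [Matrix.add_mulVec, Matrix.sub_mulVec, Matrix.sub_mulVec, Matrix.smul_mulVec, Matrix.smul_mulVec,
      Matrix.smul_mulVec, Matrix.smul_mulVec, Matrix.one_mulVec, ← Matrix.mulVec_mulVec, dotProduct_add,
      dotProduct_sub, dotProduct_sub, dotProduct_smul, dotProduct_smul, dotProduct_smul, dotProduct_smul,
      hdd, Matrix.dotProduct_mulVec d (G.adjMatrix ℤ) (G.adjMatrix ℤ *ᵥ d), ← Matrix.mulVec_transpose,
      SimpleGraph.transpose_adjMatrix, hAd, hJd, hdc]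
    have e1 : d ⬝ᵥ (fun _ => 2 * (m : ℤ)) = (2 * m) * (2 * m) := by
      rw [dotProduct, ← Finset.sum_mul, hsd]
    have e2 : (fun v => (cnt G D v : ℤ)) ⬝ᵥ (fun v => (cnt G D v : ℤ)) = ∑ v, (cnt G D v : ℤ) ^ 2 := by
      rw [dotProduct]
      exact Finset.sum_congr rfl fun i _ => (sq _).symm
    rw [e1, e2]
    simp only [smul_eq_mul]
    ring
  rw [hval] at hpsd
  have hmZ : (0 : ℤ) < m := by exact_mod_cast hm
  have hfin : 0 ≤ (m : ℤ) * (560 + 14 * m * k - (120 * m + 14 * k ^ 2 + 84 * k)) := by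
    nlinarith
  have := nonneg_of_mul_nonneg_right hfin hmZ
  linarith

theorem gm_num (t k : ℤ) (h1 : 1 ≤ t) (h2 : t ≤ 6)
    (h : 120 * (6 * t) + 14 * k ^ 2 + 84 * k ≤ 560 + 14 * (6 * t) * k) : False := by
  have h3 := sq_nonneg (k - (3 * t - 3))
  have h4 : 0 ≤ (t - 1) * (6 - t) := mul_nonneg (by linarith) (by linarith)
  nlinarith

/-- a switching set of size divisible by `12` is empty or everything -/
theorem gm_triv (G H : SimpleGraph V) [DecidableRel G.Adj]
    (hc : (G.adjMatrix ℝ).charpoly = (kneser93.adjMatrix ℝ).charpoly)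
    (D : Finset V) (m : ℕ) (hD : GMS G H D m) (h12 : 12 ∣ D.card) : H = G := by
  classical
  have hV : Fintype.card V = 84 := (dat G hc).card
  have hR := rel_int G hc
  obtain ⟨k, hk⟩ := hD.reg
  obtain ⟨t, ht⟩ := h12
  have hm6 : m = 6 * t := by
    have := hD.card
    omega
  have hle : D.card ≤ 84 := by
    rw [← hV]
    exact Finset.card_le_univ D
  have ht7 : t ≤ 7 := by omega
  have hcase : t = 0 ∨ t = 7 := by
    by_contra hcon
    push Not at hcon
    have h0 : 0 < m := by omega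
    have h1 := gm_ineq G H hR hV D m k hD h0 hk
    rw [hm6] at h1
    push_cast at h1
    exact gm_num t k (by omega) (by omega) h1
  have hext : ∀ v w, H.Adj v w ↔ G.Adj v w := by
    intro v w
    rcases hcase with h0 | h0
    · have hE : D = ∅ := by
        rw [← Finset.card_eq_zero, ht, h0]
      apply hD.same
      · rintro ⟨h1, -⟩
        rw [hE] at h1
        exact Finset.notMem_empty v h1
      · rintro ⟨h1, -⟩
        rw [hE] at h1
        exact Finset.notMem_empty w h1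
    · have hE : D = Finset.univ := by
        apply Finset.eq_univ_of_card
        omega
      apply hD.same
      · rintro ⟨-, h1, -⟩
        rw [hE] at h1
        exact h1 (Finset.mem_univ w)
      · rintro ⟨-, h1, -⟩
        rw [hE] at h1
        exact h1 (Finset.mem_univ v)
  ext v w
  exact hext v w

theorem gm_iso (G H : SimpleGraph V) (hGH : GMany G H) (hG : Nonempty (G ≃g kneser93)) :
    Nonempty (H ≃g kneser93) := by
  classical
  obtain ⟨D, m, hD⟩ := hGH
  by_cases h12 : 12 ∣ D.card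
  · obtain ⟨e⟩ := hG
    rw [gm_triv G H (charpoly_iso G kneser93 e) D m hD h12]
    exact ⟨e⟩
  · exact sim_iso G H (gm_sim G H ⟨D, m, hD, h12⟩) hG

theorem chain_gm (K G : SimpleGraph V) (hK : Nonempty (K ≃g kneser93))
    (h : Relation.ReflTransGen GMany K G) : Nonempty (G ≃g kneser93) := by
  induction h with
  | refl => exact hK
  | tail _ h2 ih => exact gm_iso _ _ h2 ih

theorem main_tfae3 (G : SimpleGraph V) [DecidableRel G.Adj]
    (hc : (G.adjMatrix ℝ).charpoly = (kneser93.adjMatrix ℝ).charpoly) :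
    List.TFAE [Nonempty (G ≃g kneser93),
      (G.adjMatrix (ZMod 2)).rank ≤ 49,
      (G.adjMatrix (ZMod 3) + 1).rank ≤ 28,
      ∃ K : SimpleGraph V, Nonempty (K ≃g kneser93) ∧ Relation.ReflTransGen Sim K G,
      ∃ K : SimpleGraph V, Nonempty (K ≃g kneser93) ∧ Relation.ReflTransGen GMany K G] := by
  have h := main_tfae G hc
  tfae_have 1 ↔ 2 := h.out 0 1
  tfae_have 1 ↔ 3 := h.out 0 2
  tfae_have 1 ↔ 4 := h.out 0 3
  tfae_have 1 → 5 := fun h => ⟨G, h, Relation.ReflTransGen.refl⟩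
  tfae_have 5 → 1 := by
    rintro ⟨K, hK, hg⟩
    exact chain_gm K G hK hg
  tfae_finish

end gm

end Pool.Agent.helper20.K93
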